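import Pool.Agent.Helper6.GP.Goals

/-! MP_75608d_al, packet GP-HITR: robust second moment. -/

set_option linter.unusedSectionVars false

namespace Pool.Agent.Helper77.GP

open Matrix Equiv Pool.Agent.Helper15.An Pool.Agent.Helper6.GP
open scoped ComplexOrder
open Pool.Agent.Helper3.AK (lazyLaw)
open Pool.Agent.Helper6.T5 (lwalk lz energy_le)

/-- the numerical core of the second moment argument -/
theorem core {α : Type} [Fintype α] (K W V b : α → ℝ) (U : α → α → ℝ) (p : ℝ) (hp : 0 < p)
    (hK : ∀ g, 0 ≤ K g) (hK1 : ∑ g, K g = 1) (hb0 : ∀ g, 0 ≤ b g) (hb1 : ∀ g, b g ≤ 1)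
    (hb : ∑ g, K g * b g ≤ 1 / 8)
    (hW : ∀ g, W g = ∑ g', K g' * U g g') (hV : ∀ g', V g' = ∑ g, K g * U g g')
    (hU : ∀ g g', U g g' ≤ (b g + b g') * U g g')
    (hW2 : ∑ g, K g * (W g - p) ^ 2 ≤ p ^ 2 / 100)
    (hV2 : ∑ g, K g * (V g - p) ^ 2 ≤ p ^ 2 / 100) : False := by
  -- pointwise bounds
  have hpt : ∀ x c : ℝ, 0 ≤ c → c ≤ 1 → c * x ≤ 5 / p * x ^ 2 + p / 20 := by
    intro x c hc0 hc1
    have h1 : x ≤ 5 / p * x ^ 2 + p / 20 := by
      have h2 : 0 ≤ (10 * x - p) ^ 2 / (20 * p) := by positivity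
      have h3 : (10 * x - p) ^ 2 / (20 * p) = 5 / p * x ^ 2 + p / 20 - x := by
        field_simp
        ring
      linarith
    have h4 : 0 ≤ 5 / p * x ^ 2 + p / 20 := by positivity
    nlinarith
  have hlow : p - p / 10 ≤ ∑ g, K g * W g := by
    have h1 : ∀ g, K g * (p - p / 20) - 5 / p * (K g * (W g - p) ^ 2) ≤ K g * W g := by
      intro g
      have h2 := hpt (p - W g) 1 zero_le_one le_rfl
      have h3 := mul_le_mul_of_nonneg_left h2 (hK g)
      have h4 : (p - W g) ^ 2 = (W g - p) ^ 2 := by ring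
      rw [h4] at h3
      nlinarith
    have h5 := Finset.sum_le_sum fun g (_ : g ∈ Finset.univ) => h1 g
    rw [Finset.sum_sub_distrib, ← Finset.sum_mul, hK1, ← Finset.mul_sum] at h5
    have h6 : 5 / p * ∑ g, K g * (W g - p) ^ 2 ≤ 5 / p * (p ^ 2 / 100) :=
      mul_le_mul_of_nonneg_left hW2 (by positivity)
    have h7 : 5 / p * (p ^ 2 / 100) = p / 20 := by
      field_simp
      norm_num
    linarith
  have hup : ∀ X : α → ℝ, ∑ g, K g * (X g - p) ^ 2 ≤ p ^ 2 / 100 →
      ∑ g, K g * (b g * X g) ≤ p / 8 + p / 10 := by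
    intro X hX
    have h1 : ∀ g, K g * (b g * X g) ≤ p * (K g * b g) + K g * (p / 20) +
        5 / p * (K g * (X g - p) ^ 2) := by
      intro g
      have h2 := hpt (X g - p) (b g) (hb0 g) (hb1 g)
      have h3 := mul_le_mul_of_nonneg_left h2 (hK g)
      nlinarith
    have h5 := Finset.sum_le_sum fun g (_ : g ∈ Finset.univ) => h1 g
    rw [Finset.sum_add_distrib, Finset.sum_add_distrib, ← Finset.mul_sum, ← Finset.sum_mul, hK1,
      ← Finset.mul_sum] at h5
    have h6 : 5 / p * ∑ g, K g * (X g - p) ^ 2 ≤ 5 / p * (p ^ 2 / 100) :=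
      mul_le_mul_of_nonneg_left hX (by positivity)
    have h7 : 5 / p * (p ^ 2 / 100) = p / 20 := by
      field_simp
      norm_num
    have h8 : p * ∑ g, K g * b g ≤ p * (1 / 8) := mul_le_mul_of_nonneg_left hb hp.le
    linarith
  have h1 : ∑ g, K g * W g ≤ ∑ g, K g * (b g * W g) + ∑ g, K g * (b g * V g) := by
    have h2 : ∑ g, K g * W g = ∑ g, ∑ g', K g * K g' * U g g' := by
      refine Finset.sum_congr rfl fun g _ => ?_
      rw [hW, Finset.mul_sum]
      exact Finset.sum_congr rfl fun g' _ => by ring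
    have h3 : ∑ g, K g * (b g * W g) = ∑ g, ∑ g', K g * K g' * (b g * U g g') := by
      refine Finset.sum_congr rfl fun g _ => ?_
      rw [hW, Finset.mul_sum, Finset.mul_sum]
      exact Finset.sum_congr rfl fun g' _ => by ring
    have h4 : ∑ g, K g * (b g * V g) = ∑ g, ∑ g', K g * K g' * (b g' * U g g') := by
      rw [Finset.sum_comm]
      refine Finset.sum_congr rfl fun g _ => ?_
      rw [hV, Finset.mul_sum, Finset.mul_sum]
      exact Finset.sum_congr rfl fun g' _ => by ring
    rw [h2, h3, h4, ← Finset.sum_add_distrib]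
    refine Finset.sum_le_sum fun g _ => ?_
    rw [← Finset.sum_add_distrib]
    refine Finset.sum_le_sum fun g' _ => ?_
    have h5 := mul_le_mul_of_nonneg_left (hU g g') (mul_nonneg (hK g) (hK g'))
    nlinarith
  have h2 := hup W hW2
  have h3 := hup V hV2
  linarith

theorem thm (hlzw : S_LZW) : S_HITR := by
  classical
  intro n k t z F τ hk hn hτ htr E hE
  obtain ⟨_, hsupp, hwalk, hnn, hsum1⟩ := hlzw n k t z hk
  have hop := (hlzw n k (2 * t) z hk).1
  set N : ℝ := (Fintype.card (Alt n) : ℝ) with hN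
  have hN0 : 0 < N := card_pos' (Alt n)
  rcases Finset.eq_empty_or_nonempty E with hE0 | hE0
  · rw [hE0, Finset.card_empty, Nat.cast_zero, mul_zero]
    positivity
  have hEc : (0 : ℝ) < E.card := by exact_mod_cast hE0.card_pos
  set p : ℝ := E.card / N with hp
  have hp0 : 0 < p := by positivity
  set u : Alt n → ℝ := fun g => if g ∈ E then 1 else 0 with hu
  set f : Alt n → ℝ := fun g => u g - p with hfdef
  have hsumu : ∑ g, u g = E.card := by
    rw [hu]
    simp
  have hcardN : ((Finset.univ : Finset (Alt n)).card : ℝ) = N := by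
    rw [Finset.card_univ]
  have hsum : ∑ g, f g = 0 := by
    rw [hfdef, Finset.sum_sub_distrib, hsumu, Finset.sum_const, nsmul_eq_mul, hcardN, hp]
    field_simp
    ring
  have hsq : ∑ g, f g ^ 2 ≤ E.card := by
    have h1 : ∀ g, f g ^ 2 = u g - 2 * p * u g + p ^ 2 := by
      intro g
      have h2 : u g ^ 2 = u g := by
        rw [hu]
        by_cases h : g ∈ E <;> simp [h]
      rw [hfdef]
      simp only
      rw [sub_sq, h2]
      ring
    simp_rw [h1]
    rw [Finset.sum_add_distrib, Finset.sum_sub_distrib, ← Finset.mul_sum, hsumu,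
      Finset.sum_const, nsmul_eq_mul, hcardN]
    have h3 : p * N = E.card := by rw [hp]; field_simp
    have h4 : N * p ^ 2 = p * E.card := by rw [← h3]; ring
    rw [h4]
    have : 0 ≤ p * E.card := by positivity
    linarith
  have hmem : ∀ (σ : Perm (Fin n)) (g h : Alt n), (h : Perm (Fin n)) = σ * g * σ⁻¹ →
      (g ∈ E ↔ h ∈ E) := by
    intro σ g h hh
    refine ⟨hE σ g h hh, hE σ⁻¹ h g ?_⟩
    rw [hh]
    group
  have hf : ∀ (σ : Perm (Fin n)) (g h : Alt n), (h : Perm (Fin n)) = σ * g * σ⁻¹ →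
      f h = f g := by
    intro σ g h hh
    have h1 := hmem σ g h hh
    rw [hfdef]
    simp only [hu, h1]
  -- the law on the alternating group
  set K : Alt n → ℝ := fun g => lazyLaw z t (g : Perm (Fin n)) with hK
  have hres : ∀ φ : Perm (Fin n) → ℝ, ∑ g : Alt n, K g * φ (g : Perm (Fin n)) =
      ∑ g, lazyLaw z t g * φ g := by
    intro φ
    have h1 : ∑ g, lazyLaw z t g * φ g =
        ∑ g ∈ Finset.univ.filter (fun g : Perm (Fin n) => g ∈ Alt n), lazyLaw z t g * φ g := by
      rw [Finset.sum_filter]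
      refine Finset.sum_congr rfl fun g _ => ?_
      by_cases hg : g ∈ Alt n
      · rw [if_pos hg]
      · rw [if_neg hg, hsupp g hg, zero_mul]
    rw [h1]
    exact (Finset.sum_subtype (Finset.univ.filter (fun g : Perm (Fin n) => g ∈ Alt n))
      (p := fun g => g ∈ Alt n) (fun g => by simp) (fun g => lazyLaw z t g * φ g)).symm
  have hK1 : ∑ g, K g = 1 := by
    have h1 := hres fun _ => 1
    simp only [mul_one] at h1
    rw [h1, hsum1]
  set W : Alt n → ℝ := fun v => (lwalk z)^[t] u v with hW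
  have hWv : ∀ v, W v = ∑ g, K g * u (v * g) := fun v => hwalk u v
  have hfw : ∀ v, (lwalk z)^[t] f v = W v - p := by
    intro v
    rw [hwalk f v, hWv v]
    rw [hfdef]
    simp only [mul_sub]
    rw [Finset.sum_sub_distrib, ← Finset.sum_mul, hK1, one_mul]
  have hen : ∑ v, (W v - p) ^ 2 ≤ τ * E.card := by
    have h1 := energy_le F {z} t τ f hsum hf (by
      intro i hi
      rw [Finset.sum_singleton]
      have h2 := htr i hi
      rw [hop _ (F.ρ i) (F.irr i).unit, wop_tupW (F.ρ i) (F.irr i).unit] at h2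
      rw [mul_comm (F.D i : ℝ) τ]
      exact h2)
    rw [Finset.sum_singleton] at h1
    simp_rw [hfw] at h1
    exact h1.trans (mul_le_mul_of_nonneg_left hsq hτ)
  -- the bad elements
  set bad : Finset (Alt n) := Finset.univ.filter
    (fun y : Alt n => ¬ Hits z t (fun u => u ∈ E) y) with hbad
  have hcard : Nat.card {y : Alt n // ¬ Hits z t (fun u => u ∈ E) y} = bad.card := by
    rw [Nat.card_eq_fintype_card, Fintype.card_subtype]
  have hkey : ∀ y ∈ bad, p ^ 2 / 100 ≤
      ∑ g, K g * (W (y * g) - p) ^ 2 + ∑ g, K g * (W (g * y) - p) ^ 2 := by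
    intro y hy
    by_contra hcon
    push Not at hcon
    have hn1 : 0 ≤ ∑ g, K g * (W (y * g) - p) ^ 2 :=
      Finset.sum_nonneg fun g _ => mul_nonneg (hnn _) (sq_nonneg _)
    have hn2 : 0 ≤ ∑ g, K g * (W (g * y) - p) ^ 2 :=
      Finset.sum_nonneg fun g _ => mul_nonneg (hnn _) (sq_nonneg _)
    have h1 : ¬ Hits z t (fun u => u ∈ E) y := (Finset.mem_filter.1 hy).2
    unfold Hits at h1
    push Not at h1
    obtain ⟨B, hB, hB2⟩ := h1
    refine core K (fun g => W (y * g)) (fun g => W (g * y))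
      (fun g => if (g : Perm (Fin n)) ∈ B then 1 else 0) (fun g g' => u (y * g * g')) p hp0
      (fun g => hnn _) hK1 (fun g => by split_ifs <;> norm_num)
      (fun g => by split_ifs <;> norm_num) ?_ (fun g => hWv _) ?_ ?_ (by linarith) (by linarith)
    · have h2 := hres fun g => if g ∈ B then 1 else 0
      rw [h2]
      have h3 : ∑ g, lazyLaw z t g * (if g ∈ B then (1 : ℝ) else 0) = ∑ g ∈ B, lazyLaw z t g := by
        simp [Finset.sum_ite_mem]
      rw [h3]
      exact hB
    · intro g'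
      change W (g' * y) = _
      rw [hWv]
      refine Finset.sum_congr rfl fun g _ => ?_
      have h2 : (g' * y * g ∈ E) ↔ (y * g * g' ∈ E) := by
        refine (hmem (g' : Perm (Fin n)) (y * g * g') (g' * y * g) ?_).symm
        push_cast
        group
      rw [hu]
      simp only [h2]
    · intro g g'
      have h0 : 0 ≤ u (y * g * g') := by
        rw [hu]
        simp only
        split_ifs <;> norm_num
      by_cases h2 : (g : Perm (Fin n)) ∈ B
      · by_cases h3 : (g' : Perm (Fin n)) ∈ B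
        · simp only [h2, h3, if_true]
          linarith
        · simp only [h2, h3, if_true, if_false]
          linarith
      · by_cases h3 : (g' : Perm (Fin n)) ∈ B
        · simp only [h2, h3, if_true, if_false]
          linarith
        · have h4 := hB2 g g' h2 h3
          have h5 : u (y * g * g') = 0 := by
            rw [hu]
            simp only [h4, if_false]
          simp only [h5, mul_zero, le_refl]
  have hS1 : ∑ y, ∑ g, K g * (W (y * g) - p) ^ 2 = ∑ v, (W v - p) ^ 2 := by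
    rw [Finset.sum_comm]
    have h1 : ∀ g : Alt n, ∑ y, K g * (W (y * g) - p) ^ 2 = K g * ∑ v, (W v - p) ^ 2 := by
      intro g
      rw [← Finset.mul_sum]
      congr 1
      exact Equiv.sum_comp (Equiv.mulRight g) fun v => (W v - p) ^ 2
    simp_rw [h1]
    rw [← Finset.sum_mul, hK1, one_mul]
  have hS2 : ∑ y, ∑ g, K g * (W (g * y) - p) ^ 2 = ∑ v, (W v - p) ^ 2 := by
    rw [Finset.sum_comm]
    have h1 : ∀ g : Alt n, ∑ y, K g * (W (g * y) - p) ^ 2 = K g * ∑ v, (W v - p) ^ 2 := by
      intro g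
      rw [← Finset.mul_sum]
      congr 1
      exact Equiv.sum_comp (Equiv.mulLeft g) fun v => (W v - p) ^ 2
    simp_rw [h1]
    rw [← Finset.sum_mul, hK1, one_mul]
  have hfin : (bad.card : ℝ) * (p ^ 2 / 100) ≤ 2 * (τ * E.card) := by
    have h1 : (bad.card : ℝ) * (p ^ 2 / 100) ≤
        ∑ y ∈ bad, (∑ g, K g * (W (y * g) - p) ^ 2 + ∑ g, K g * (W (g * y) - p) ^ 2) := by
      rw [← nsmul_eq_mul]
      exact Finset.card_nsmul_le_sum bad _ _ hkey
    have h2 : ∑ y ∈ bad, (∑ g, K g * (W (y * g) - p) ^ 2 + ∑ g, K g * (W (g * y) - p) ^ 2) ≤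
        ∑ y, (∑ g, K g * (W (y * g) - p) ^ 2 + ∑ g, K g * (W (g * y) - p) ^ 2) := by
      refine Finset.sum_le_sum_of_subset_of_nonneg (Finset.subset_univ _) fun y _ _ => ?_
      exact add_nonneg (Finset.sum_nonneg fun g _ => mul_nonneg (hnn _) (sq_nonneg _))
        (Finset.sum_nonneg fun g _ => mul_nonneg (hnn _) (sq_nonneg _))
    have h3 : ∑ y, (∑ g, K g * (W (y * g) - p) ^ 2 + ∑ g, K g * (W (g * y) - p) ^ 2) =
        2 * ∑ v, (W v - p) ^ 2 := by
      rw [Finset.sum_add_distrib, hS1, hS2]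
      ring
    rw [h3] at h2
    linarith
  rw [hcard]
  have h1 : (bad.card : ℝ) * (p ^ 2 / 100) * (100 * N ^ 2) ≤ 2 * (τ * E.card) * (100 * N ^ 2) :=
    mul_le_mul_of_nonneg_right hfin (by positivity)
  have h2 : (bad.card : ℝ) * (p ^ 2 / 100) * (100 * N ^ 2) = (bad.card * E.card) * E.card := by
    rw [hp]
    field_simp
  rw [h2] at h1
  refine le_of_mul_le_mul_right ?_ hEc
  calc _ ≤ 2 * (τ * E.card) * (100 * N ^ 2) := h1
    _ = _ := by ring

end Pool.Agent.Helper77.GP
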