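import Pool.Agent.Helper72.GP.GoalsB

/-!
# Project GP, packet DYAD: dyadic sums
-/

set_option autoImplicit false

namespace Pool.Agent.Helper77.GP

open Finset Polynomial
open scoped Polynomial.Bivariate Classical
open Pool.Agent.Helper72.GP

/-- dyadic sums -/
theorem dyad : DYAD := by
  constructor
  · intro J r hr1 hr2
    have hr0 : 0 < r := lt_of_lt_of_le (by positivity) hr1
    have hex : ∃ j : ℕ, 1 ≤ (4 : ℝ) ^ j * r := by
      refine ⟨J, ?_⟩
      have := mul_le_mul_of_nonneg_left hr1 (by positivity : (0 : ℝ) ≤ 4 ^ J)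
      rwa [mul_inv_cancel₀ (by positivity)] at this
    have hle : Nat.find hex ≤ J := by
      refine Nat.find_min' hex ?_
      have := mul_le_mul_of_nonneg_left hr1 (by positivity : (0 : ℝ) ≤ 4 ^ J)
      rwa [mul_inv_cancel₀ (by positivity)] at this
    have hspec := Nat.find_spec hex
    have hmin : ∀ m, m < Nat.find hex → (4 : ℝ) ^ m * r < 1 := fun m hm =>
      not_le.mp (Nat.find_min hex hm)
    generalize Nat.find hex = j at hle hspec hmin
    have hterm : r ^ ((3 : ℝ) / 4) ≤
        (2 : ℝ) ^ (-(3 * ((j : ℝ) - 1)) / 2) * min 1 ((4 : ℝ) ^ j * r) := by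
      rw [min_eq_left hspec, mul_one]
      rcases j with _ | j
      · calc r ^ ((3 : ℝ) / 4) ≤ 1 := Real.rpow_le_one hr0.le hr2 (by norm_num)
          _ ≤ _ := Real.one_le_rpow (by norm_num) (by push_cast; norm_num)
      · have h1 := hmin j (Nat.lt_succ_self j)
        have h2 : r ≤ (2 : ℝ) ^ (-(2 * (j : ℝ))) := by
          rw [Real.rpow_neg (by norm_num), Real.rpow_mul (by norm_num), Real.rpow_natCast]
          rw [show ((2 : ℝ) ^ (2 : ℝ)) = 4 by norm_num]
          rw [← one_div, le_div_iff₀ (by positivity), mul_comm]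
          exact h1.le
        calc r ^ ((3 : ℝ) / 4) ≤ ((2 : ℝ) ^ (-(2 * (j : ℝ)))) ^ ((3 : ℝ) / 4) :=
              Real.rpow_le_rpow hr0.le h2 (by norm_num)
          _ = (2 : ℝ) ^ (-(3 * (((j + 1 : ℕ) : ℝ) - 1)) / 2) := by
              rw [← Real.rpow_mul (by norm_num)]
              congr 1
              push_cast
              ring
    refine hterm.trans ?_
    refine Finset.single_le_sum (f := fun j : ℕ =>
      (2 : ℝ) ^ (-(3 * ((j : ℝ) - 1)) / 2) * min 1 ((4 : ℝ) ^ j * r)) ?_
      (Finset.mem_range.mpr (by omega))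
    intro i _
    refine mul_nonneg (by positivity) (le_min zero_le_one (by positivity))
  · intro J
    set q : ℝ := (2 : ℝ) ^ (-(1 : ℝ) / 2) with hq
    have hq0 : 0 < q := by positivity
    have hq2 : q * q = 1 / 2 := by
      rw [hq, ← Real.rpow_add (by norm_num)]
      norm_num
    have hq1 : q < 1 := by nlinarith
    have hterm : ∀ j : ℕ, (2 : ℝ) ^ (-(3 * ((j : ℝ) - 1)) / 2) * (36 * (2 : ℝ) ^ j) =
        144 * q * q ^ j := by
      intro j
      have h1 : (2 : ℝ) ^ (-(3 * ((j : ℝ) - 1)) / 2) * (2 : ℝ) ^ j = 4 * (q * q ^ j) := by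
        have e1 : q ^ j = (2 : ℝ) ^ (-(1 : ℝ) / 2 * j) := by
          rw [hq, Real.rpow_mul (by norm_num), Real.rpow_natCast]
        have e2 : (4 : ℝ) = (2 : ℝ) ^ (2 : ℝ) := by norm_num
        rw [e1, hq, ← Real.rpow_natCast 2 j, e2, ← Real.rpow_add (by norm_num),
          ← Real.rpow_add (by norm_num), ← Real.rpow_add (by norm_num)]
        congr 1
        ring
      calc _ = 36 * ((2 : ℝ) ^ (-(3 * ((j : ℝ) - 1)) / 2) * (2 : ℝ) ^ j) := by ring
        _ = _ := by rw [h1]; ring
    rw [Finset.sum_congr rfl fun j _ => hterm j, ← Finset.mul_sum]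
    have hg : ∑ j ∈ range (J + 1), q ^ j ≤ (1 - q)⁻¹ := by
      rw [← tsum_geometric_of_lt_one hq0.le hq1]
      exact (summable_geometric_of_lt_one hq0.le hq1).sum_le_tsum _ fun _ _ => by positivity
    calc 144 * q * ∑ j ∈ range (J + 1), q ^ j ≤ 144 * q * (1 - q)⁻¹ :=
          mul_le_mul_of_nonneg_left hg (by positivity)
      _ ≤ 349 := by
          rw [← div_eq_mul_inv, div_le_iff₀ (by linarith)]
          nlinarith

end Pool.Agent.Helper77.GP
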