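import Pool.Agent.Helper72.GP.GoalsB

/-!
# Project GP, packet LOC: continuity of the real zeros
-/

set_option autoImplicit false

namespace Pool.Agent.Helper77.GP

open Finset Polynomial Filter Topology
open scoped Polynomial.Bivariate Classical
open Pool.Agent.Helper72.GP

noncomputable section

lemma evr_eq (f : ℝ[X][Y]) (x y : ℝ) : evr f x y = (f.map (evalRingHom x)).eval y :=
  (map_evalRingHom_eval x y f).symm

lemma evr_sum (f : ℝ[X][Y]) (x y : ℝ) :
    evr f x y = ∑ j ∈ range (f.natDegree + 1), (f.coeff j).eval x * y ^ j := by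
  rw [evr_eq, eval_map, eval₂_eq_sum_range]
  rfl

lemma evr_cont (f : ℝ[X][Y]) : Continuous (fun p : ℝ × ℝ => evr f p.1 p.2) := by
  simp only [evr_sum]
  refine continuous_finsetSum _ fun j _ => ?_
  exact ((f.coeff j).continuous.comp continuous_fst).mul (continuous_snd.pow j)

lemma evr_deriv (f : ℝ[X][Y]) (x y : ℝ) : HasDerivAt (fun y => evr f x y) (evr (dY f) x y) y := by
  have h := (f.map (evalRingHom x)).hasDerivAt y
  rw [derivative_map] at h
  have h2 : (fun y => evr f x y) = fun y => (f.map (evalRingHom x)).eval y :=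
    funext fun y => evr_eq f x y
  rw [h2, evr_eq]
  exact h

/-- near a simple zero there is exactly one zero -/
lemma one_zero (f : ℝ[X][Y]) (x0 y0 : ℝ) (h0 : evr f x0 y0 = 0) (h1 : evr (dY f) x0 y0 ≠ 0) :
    ∃ r > 0, ∀ ρ, 0 < ρ → ρ ≤ r → ∀ᶠ x in 𝓝 x0,
      ∃! y, y ∈ Set.Ioo (y0 - ρ) (y0 + ρ) ∧ evr f x y = 0 := by
  set s : ℝ := evr (dY f) x0 y0 with hs
  have hopen : IsOpen {p : ℝ × ℝ | 0 < s * evr (dY f) p.1 p.2} :=
    isOpen_lt continuous_const (continuous_const.mul (evr_cont _))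
  have hmem : (x0, y0) ∈ {p : ℝ × ℝ | 0 < s * evr (dY f) p.1 p.2} := by
    exact mul_self_pos.mpr h1
  obtain ⟨r, hr, hball⟩ := Metric.isOpen_iff.mp hopen _ hmem
  have hpos : ∀ x y, |x - x0| < r → |y - y0| < r → 0 < s * evr (dY f) x y := by
    intro x y hx hy
    have : (x, y) ∈ Metric.ball (x0, y0) r := by
      rw [Metric.mem_ball, Prod.dist_eq, max_lt_iff, Real.dist_eq, Real.dist_eq]
      exact ⟨hx, hy⟩
    exact hball this
  refine ⟨r / 2, by positivity, fun ρ hρ hρr => ?_⟩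
  have hmono : ∀ x, |x - x0| < r →
      StrictMonoOn (fun y => s * evr f x y) (Set.Icc (y0 - ρ) (y0 + ρ)) := by
    intro x hx
    refine strictMonoOn_of_deriv_pos (convex_Icc _ _) ?_ ?_
    · exact (continuous_const.mul ((evr_cont f).comp
        (continuous_const.prodMk continuous_id))).continuousOn
    · intro y hy
      rw [interior_Icc, Set.mem_Ioo] at hy
      rw [((evr_deriv f x y).const_mul s).deriv]
      exact hpos x y hx (abs_lt.mpr ⟨by linarith, by linarith⟩)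
  have hx0 : |x0 - x0| < r := by simpa using hr
  have h2 : s * evr f x0 (y0 - ρ) < 0 := by
    have := hmono x0 hx0 (a := y0 - ρ) (b := y0) ⟨le_rfl, by linarith⟩
      ⟨by linarith, by linarith⟩ (by linarith)
    simpa [h0] using this
  have h3 : 0 < s * evr f x0 (y0 + ρ) := by
    have := hmono x0 hx0 (a := y0) (b := y0 + ρ) ⟨by linarith, by linarith⟩
      ⟨by linarith, le_rfl⟩ (by linarith)
    simpa [h0] using this
  have hcx : ∀ y, Continuous (fun x => s * evr f x y) := fun y =>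
    continuous_const.mul ((evr_cont f).comp (continuous_id.prodMk continuous_const))
  have hcy : ∀ x, Continuous (fun y => s * evr f x y) := fun x =>
    continuous_const.mul ((evr_cont f).comp (continuous_const.prodMk continuous_id))
  filter_upwards [(hcx (y0 - ρ)).continuousAt.eventually (gt_mem_nhds h2),
    (hcx (y0 + ρ)).continuousAt.eventually (lt_mem_nhds h3),
    Metric.ball_mem_nhds x0 hr] with x hx1 hx2 hx3
  rw [Metric.mem_ball, Real.dist_eq] at hx3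
  obtain ⟨y, hy, hy0⟩ := intermediate_value_Ioo (by linarith : y0 - ρ ≤ y0 + ρ)
    (hcy x).continuousOn ⟨hx1, hx2⟩
  have hs0 : s ≠ 0 := h1
  refine ⟨y, ⟨hy, (mul_eq_zero.mp hy0).resolve_left hs0⟩, ?_⟩
  rintro z ⟨hz, hz0⟩
  refine (hmono x hx3).injOn (Set.Ioo_subset_Icc_self hz) (Set.Ioo_subset_Icc_self hy) ?_
  rw [hz0, mul_zero]
  exact hy0.symm

lemma map_ne (f : ℝ[X][Y]) (x : ℝ) (h : (f.leadingCoeff).eval x ≠ 0) :
    f.map (evalRingHom x) ≠ 0 := by
  intro h0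
  have := congrArg (fun p => p.coeff f.natDegree) h0
  simp only [coeff_map, coeff_zero] at this
  exact h this

lemma mem_zeros (f : ℝ[X][Y]) (x y : ℝ) (h : (f.leadingCoeff).eval x ≠ 0) :
    y ∈ (f.map (evalRingHom x)).roots.toFinset ↔ evr f x y = 0 := by
  rw [Multiset.mem_toFinset, mem_roots (map_ne f x h), IsRoot.def, evr_eq]

/-- the zeros are bounded -/
lemma zeros_bdd (f : ℝ[X][Y]) (α β : ℝ) (h : ∀ x ∈ Set.Icc α β, (f.leadingCoeff).eval x ≠ 0) :
    ∃ K : ℝ, ∀ x ∈ Set.Icc α β, ∀ y, evr f x y = 0 → |y| ≤ K := by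
  have hc : ContinuousOn (fun x : ℝ => (∑ j ∈ range f.natDegree, |(f.coeff j).eval x|) /
      |(f.leadingCoeff).eval x|) (Set.Icc α β) := by
    refine ContinuousOn.div ?_ ?_ ?_
    · exact (continuous_finsetSum _ fun j _ => (f.coeff j).continuous.abs).continuousOn
    · exact (f.leadingCoeff).continuous.abs.continuousOn
    · intro x hx
      exact abs_ne_zero.mpr (h x hx)
  obtain ⟨M, hM⟩ := isCompact_Icc.exists_bound_of_continuousOn hc
  refine ⟨M + 1, fun x hx y hy => ?_⟩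
  have hl := h x hx
  have hdeg : (f.map (evalRingHom x)).natDegree = f.natDegree :=
    natDegree_map_of_leadingCoeff_ne_zero _ hl
  have hlead : (f.map (evalRingHom x)).leadingCoeff = (f.leadingCoeff).eval x := by
    rw [leadingCoeff, hdeg, coeff_map]
    rfl
  have hroot : (f.map (evalRingHom x)).IsRoot y := by
    rw [IsRoot.def, ← evr_eq]
    exact hy
  have h1 := IsRoot.norm_lt_cauchyBound (map_ne f x hl) hroot
  have h2 : (cauchyBound (f.map (evalRingHom x)) : ℝ) ≤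
      (∑ j ∈ range f.natDegree, |(f.coeff j).eval x|) / |(f.leadingCoeff).eval x| + 1 := by
    unfold cauchyBound
    rw [NNReal.coe_add, NNReal.coe_div, hdeg, hlead, coe_nnnorm, Real.norm_eq_abs, NNReal.coe_one]
    refine add_le_add ?_ le_rfl
    refine div_le_div_of_nonneg_right ?_ (abs_nonneg _)
    have h3 : ((range f.natDegree).sup fun j => ‖(f.map (evalRingHom x)).coeff j‖₊) ≤
        ∑ j ∈ range f.natDegree, ‖(f.coeff j).eval x‖₊ := by
      refine Finset.sup_le fun j hj => ?_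
      rw [coeff_map]
      exact Finset.single_le_sum (f := fun j => ‖(f.coeff j).eval x‖₊) (fun _ _ => zero_le) hj
    have h4 := NNReal.coe_le_coe.mpr h3
    rw [NNReal.coe_sum] at h4
    simpa using h4
  have h3 := hM x hx
  rw [Real.norm_eq_abs] at h3
  have h4 : (‖y‖₊ : ℝ) < cauchyBound (f.map (evalRingHom x)) := NNReal.coe_lt_coe.mpr h1
  rw [coe_nnnorm, Real.norm_eq_abs] at h4
  have h5 := le_abs_self ((∑ j ∈ range f.natDegree, |(f.coeff j).eval x|) /
    |(f.leadingCoeff).eval x|)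
  linarith

/-- a good radius -/
lemma radius (Z : Finset ℝ) (η : ℝ) (hη : 0 < η) (r : ℝ → ℝ) (hr : ∀ z ∈ Z, 0 < r z) :
    ∃ ρ : ℝ, 0 < ρ ∧ ρ ≤ η ∧ (∀ z ∈ Z, ρ ≤ r z) ∧
      ∀ z ∈ Z, ∀ z' ∈ Z, z ≠ z' → 2 * ρ ≤ |z - z'| := by
  have hsm : ∀ a : ℝ, 0 < a → ∀ᶠ ρ in 𝓝[>] (0 : ℝ), ρ ≤ a := fun a ha =>
    nhdsWithin_le_nhds ((gt_mem_nhds ha).mono fun _ h => le_of_lt h)
  have h1 : ∀ᶠ ρ in 𝓝[>] (0 : ℝ), ∀ z ∈ Z, ρ ≤ r z :=
    (Z.eventually_all).mpr fun z hz => hsm _ (hr z hz)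
  have h2 : ∀ᶠ ρ in 𝓝[>] (0 : ℝ), ∀ z ∈ Z, ∀ z' ∈ Z, z ≠ z' → 2 * ρ ≤ |z - z'| := by
    refine (Z.eventually_all).mpr fun z hz => (Z.eventually_all).mpr fun z' hz' => ?_
    by_cases h : z = z'
    · exact Eventually.of_forall fun _ h' => absurd h h'
    · have h3 : 0 < |z - z'| := abs_pos.mpr (sub_ne_zero.mpr h)
      filter_upwards [hsm (|z - z'| / 2) (by positivity)] with ρ hρ _
      linarith
  have h0 : ∀ᶠ ρ in 𝓝[>] (0 : ℝ), 0 < ρ := eventually_mem_nhdsWithin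
  obtain ⟨ρ, h3, h4, h5, h6⟩ := (h0.and ((hsm η hη).and (h1.and h2))).exists
  exact ⟨ρ, h3, h4, h5, h6⟩

/-- continuity of the real zeros -/
theorem loc : LOC := by
  intro f α β hαβ hgood x0 hx0 η hη
  set Z : Finset ℝ := (f.map (evalRingHom x0)).roots.toFinset with hZ
  have hlead : ∀ x ∈ Set.Icc α β, (f.leadingCoeff).eval x ≠ 0 := fun x hx => (hgood x hx).1
  have hmem : ∀ x ∈ Set.Icc α β, ∀ y, y ∈ (f.map (evalRingHom x)).roots.toFinset ↔ evr f x y = 0 :=
    fun x hx y => mem_zeros f x y (hlead x hx)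
  have hZm : ∀ y, y ∈ Z ↔ evr f x0 y = 0 := hmem x0 hx0
  obtain ⟨K, hK⟩ := zeros_bdd f α β hlead
  have hone : ∀ z : ℝ, ∃ r : ℝ, z ∈ Z → 0 < r ∧ ∀ ρ, 0 < ρ → ρ ≤ r → ∀ᶠ x in 𝓝 x0,
      ∃! y, y ∈ Set.Ioo (z - ρ) (z + ρ) ∧ evr f x y = 0 := by
    intro z
    by_cases hz : z ∈ Z
    · have h0 := (hZm z).mp hz
      obtain ⟨r, hr, h⟩ := one_zero f x0 z h0 ((hgood x0 hx0).2 z h0)
      exact ⟨r, fun _ => ⟨hr, h⟩⟩
    · exact ⟨1, fun h => absurd h hz⟩
  choose r hr using hone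
  obtain ⟨ρ, hρ, hρη, hρr, hρZ⟩ := radius Z η hη r fun z hz => (hr z hz).1
  have hA : ∀ᶠ x in 𝓝 x0, ∀ z ∈ Z, ∃! y, y ∈ Set.Ioo (z - ρ) (z + ρ) ∧ evr f x y = 0 :=
    (Z.eventually_all).mpr fun z hz => (hr z hz).2 ρ hρ (hρr z hz)
  have hB : ∀ᶠ x in 𝓝 x0, ∀ y ∈ Set.Icc (-K) K ∩ {y | ∀ z ∈ Z, ρ ≤ |y - z|}, evr f x y ≠ 0 := by
    have hcl : IsClosed {y : ℝ | ∀ z ∈ Z, ρ ≤ |y - z|} := by
      have : {y : ℝ | ∀ z ∈ Z, ρ ≤ |y - z|} = ⋂ z ∈ Z, {y : ℝ | ρ ≤ |y - z|} := by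
        ext y
        simp
      rw [this]
      exact isClosed_biInter fun z _ =>
        isClosed_le continuous_const ((continuous_id.sub continuous_const).abs)
    refine (isCompact_Icc.inter_right hcl).eventually_forall_of_forall_eventually
      (P := fun x y => evr f x y ≠ 0) fun y hy => ?_
    have hne : evr f x0 y ≠ 0 := by
      intro h0
      have := hy.2 y ((hZm y).mpr h0)
      rw [sub_self, abs_zero] at this
      linarith
    exact (evr_cont f).continuousAt.eventually_ne hne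
  obtain ⟨ε, hε, hev⟩ := Metric.eventually_nhds_iff.mp (hA.and hB)
  refine ⟨ε, hε, fun x hx hxx => ?_⟩
  obtain ⟨hA', hB'⟩ := hev (show dist x x0 < ε by rwa [Real.dist_eq])
  have hch : ∀ z : ℝ, ∃ y : ℝ, z ∈ Z → (y ∈ Set.Ioo (z - ρ) (z + ρ) ∧ evr f x y = 0) ∧
      ∀ y', y' ∈ Set.Ioo (z - ρ) (z + ρ) ∧ evr f x y' = 0 → y' = y := by
    intro z
    by_cases hz : z ∈ Z
    · obtain ⟨y, hy, hy'⟩ := hA' z hz
      exact ⟨y, fun _ => ⟨hy, hy'⟩⟩
    · exact ⟨0, fun h => absurd h hz⟩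
  choose φ hφ using hch
  have hmono : ∀ z ∈ Z, ∀ z' ∈ Z, z < z' → φ z < φ z' := by
    intro z hz z' hz' hzz
    have h1 := (hφ z hz).1.1.2
    have h2 := (hφ z' hz').1.1.1
    have h3 := hρZ z hz z' hz' hzz.ne
    rw [abs_sub_comm, abs_of_pos (by linarith)] at h3
    linarith
  have hinj : ∀ z ∈ Z, ∀ z' ∈ Z, φ z = φ z' → z = z' := by
    intro z hz z' hz' h
    rcases lt_trichotomy z z' with h1 | h1 | h1
    · exact absurd h (hmono z hz z' hz' h1).ne
    · exact h1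
    · exact absurd h (hmono z' hz' z hz h1).ne'
  have hlt : ∀ z ∈ Z, ∀ z' ∈ Z, (φ z < φ z' ↔ z < z') := by
    intro z hz z' hz'
    refine ⟨fun h => ?_, hmono z hz z' hz'⟩
    by_contra hcon
    rcases lt_or_eq_of_le (not_lt.mp hcon) with h1 | h1
    · exact absurd (hmono z' hz' z hz h1) (not_lt.mpr h.le)
    · rw [h1] at h
      exact lt_irrefl _ h
  have himg : (f.map (evalRingHom x)).roots.toFinset = Z.image φ := by
    ext y
    rw [hmem x hx, mem_image]
    constructor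
    · intro hy
      have hyK := abs_le.mp (hK x hx y hy)
      have : ¬ ∀ z ∈ Z, ρ ≤ |y - z| := fun h => hB' y ⟨⟨hyK.1, hyK.2⟩, h⟩ hy
      push Not at this
      obtain ⟨z, hz, hyz⟩ := this
      rw [abs_lt] at hyz
      refine ⟨z, hz, ((hφ z hz).2 y ⟨⟨by linarith, by linarith⟩, hy⟩).symm⟩
    · rintro ⟨z, hz, rfl⟩
      exact (hφ z hz).1.2
  refine ⟨?_, fun y0 hy0 => ?_⟩
  · rw [himg, card_image_of_injOn]
    intro z hz z' hz' h
    exact hinj z hz z' hz' h
  · have hy0' : y0 ∈ Z := (hZm y0).mpr hy0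
    refine ⟨φ y0, (hφ y0 hy0').1.2, ?_, ?_⟩
    · have h1 := (hφ y0 hy0').1.1
      rw [abs_lt]
      constructor
      · linarith [h1.1]
      · linarith [h1.2]
    · unfold rk
      rw [himg]
      have : (Z.image φ).filter (fun z => z < φ y0) = (Z.filter (fun z => z < y0)).image φ := by
        ext y
        simp only [mem_filter, mem_image]
        constructor
        · rintro ⟨⟨z, hz, rfl⟩, h⟩
          exact ⟨z, ⟨hz, (hlt z hz y0 hy0').mp h⟩, rfl⟩
        · rintro ⟨z, ⟨hz, h⟩, rfl⟩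
          exact ⟨⟨z, hz, rfl⟩, (hlt z hz y0 hy0').mpr h⟩
      rw [this, card_image_of_injOn]
      intro z hz z' hz' h
      exact hinj z (mem_filter.mp hz).1 z' (mem_filter.mp hz').1 h

end

end Pool.Agent.Helper77.GP
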