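import Pool.Agent.Helper89.GP.GoalsC

namespace Pool.Agent.Helper77.GP

open Pool.Agent.Helper89.GP

theorem ksn : KsnStmt := by
  intro A c g N h hA
  have hA0 : 0 < A := lt_of_lt_of_le h.c0 h.cA
  obtain ⟨s, hs⟩ : ∃ s, s = c / A := ⟨_, rfl⟩
  have hs0 : 0 < s := by rw [hs]; exact div_pos h.c0 hA0
  have hs1 : s ≤ 1 := by rw [hs]; exact (div_le_one hA0).2 h.cA
  have rh := h.rh
  have r3 := h.r3
  have r4 := h.r4
  have rJ := h.rJ (4 / (5 * s)) (by positivity)
  rw [← hs] at rh r3 r4 rJ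
  rcases le_total (1 / 2) s with h1 | h1
  · have e : 2 * s + 1 / s ≤ 3 := by
      rw [← sub_nonneg]
      have : 3 - (2 * s + 1 / s) = (2 * s - 1) * (1 - s) / s := by field_simp; ring
      rw [this]
      exact div_nonneg (mul_nonneg (by linarith) (by linarith)) hs0.le
    nlinarith [mul_le_mul_of_nonneg_left e hA0.le]
  rcases le_total (7 / 20) s with h2 | h2
  · have e : s * (3 + s) + 1 / s ≤ 41 / 10 := by
      rw [← sub_nonneg]
      have : 41 / 10 - (s * (3 + s) + 1 / s) = (41 / 10 * s - 3 * s ^ 2 - s ^ 3 - 1) / s := by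
        field_simp
        ring
      rw [this]
      refine div_nonneg ?_ hs0.le
      nlinarith [mul_nonneg (sub_nonneg.2 h1) (sub_nonneg.2 h2), mul_nonneg
        (mul_nonneg (sub_nonneg.2 h1) (sub_nonneg.2 h2)) hs0.le]
    nlinarith [mul_le_mul_of_nonneg_left e hA0.le]
  rcases le_total (21 / 100) s with h3 | h3
  · have e : s * (6 + 4 * s + s ^ 2) + 1 / s ≤ 63 / 10 := by
      rw [← sub_nonneg]
      have : 63 / 10 - (s * (6 + 4 * s + s ^ 2) + 1 / s) =
          (63 / 10 * s - 6 * s ^ 2 - 4 * s ^ 3 - s ^ 4 - 1) / s := by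
        field_simp
        ring
      rw [this]
      refine div_nonneg ?_ hs0.le
      nlinarith [mul_nonneg (sub_nonneg.2 h2) (sub_nonneg.2 h3), mul_nonneg
        (mul_nonneg (sub_nonneg.2 h2) (sub_nonneg.2 h3)) hs0.le, mul_nonneg
        (mul_nonneg (sub_nonneg.2 h2) (sub_nonneg.2 h3)) (mul_nonneg hs0.le hs0.le)]
    nlinarith [mul_le_mul_of_nonneg_left e hA0.le]
  · have hexp : Real.exp (4 / 5) ≤ 2.2256 := by
      have h5 : Real.exp (4 / 5) ^ 5 = Real.exp 1 ^ 4 := by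
        rw [← Real.exp_nat_mul, ← Real.exp_nat_mul]
        norm_num
      have h1 : Real.exp 1 ≤ 2.7182818286 := Real.exp_one_lt_d9.le
      have h4 : Real.exp 1 ^ 4 ≤ 2.2256 ^ 5 := by
        calc Real.exp 1 ^ 4 ≤ (2.7182818286 : ℝ) ^ 4 := by gcongr
          _ ≤ 2.2256 ^ 5 := by norm_num
      rw [← h5] at h4
      exact le_of_pow_le_pow_left₀ (by norm_num) (by norm_num) h4
    have e1 : s * (4 / (5 * s)) = 4 / 5 := by field_simp
    rw [e1] at rJ
    have e2 : A * ((1 + s) ^ 2 * Real.exp (4 / 5) / s) ≤ A * ((1 + s) ^ 2 * 2.2256 / s) := by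
      gcongr
    have e3 : 5 / 2 - 11 / 2 * A ≤ 4 / (5 * s) + 2 - A * ((1 + s) ^ 2 * 2.2256 / s) := by
      rw [← sub_nonneg]
      have : 4 / (5 * s) + 2 - A * ((1 + s) ^ 2 * 2.2256 / s) - (5 / 2 - 11 / 2 * A) =
          (4 / 5 - A * (2.2256 * (1 + s) ^ 2 - 11 / 2 * s) - 1 / 2 * s) / s := by
        field_simp
        ring
      rw [this]
      refine div_nonneg ?_ hs0.le
      have hp : 0 ≤ 2.2256 * (1 + s) ^ 2 - 11 / 2 * s := by nlinarith
      have := mul_le_mul_of_nonneg_right hA hp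
      nlinarith
    linarith

theorem sml : SmlStmt := by
  intro A c g N h hA hc
  have hA0 : 0 < A := lt_of_lt_of_le h.c0 h.cA
  obtain ⟨s, hs⟩ : ∃ s, s = c / A := ⟨_, rfl⟩
  have hs0 : 0 < s := by rw [hs]; exact div_pos h.c0 hA0
  have hs1 : s ≤ 2 / 25 := by rw [hs]; exact (div_le_iff₀ hA0).2 hc
  have rJ := h.rJ (1 / s) (by positivity)
  rw [← hs] at rJ
  have e1 : s * (1 / s) = 1 := by field_simp
  rw [e1] at rJ
  have h1 : Real.exp 1 ≤ 2.7182818286 := Real.exp_one_lt_d9.le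
  have e2 : A * ((1 + s) ^ 2 * Real.exp 1 / s) < 1 / s := by
    rw [← mul_div_assoc]
    refine div_lt_div_of_pos_right ?_ hs0
    calc A * ((1 + s) ^ 2 * Real.exp 1) ≤ 5 / 16 * ((1 + 2 / 25) ^ 2 * 2.7182818286) := by gcongr
      _ < 1 := by norm_num
  linarith

end Pool.Agent.Helper77.GP
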